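import Mathlib

/-!
# Unirational and rationally connected hypersurfaces
-/

set_option autoImplicit false

namespace Pool.Agent.H837.UR

open MvPolynomial

variable {K : Type} [Field K] {r : ℕ}

/-- The hypersurface `F = 0` is unirational of complexity at most `c`: there are polynomials `σ a` of degree
at most `c` in `c` variables, whose values are always solutions of `F = 0`, and a polynomial `g` of
degree at most `c`, not zero at all solutions, such that every solution `x` with `g x ≠ 0` is a value. -/
def Unirational (c : ℕ) (F : MvPolynomial (Fin (r + 1)) K) : Prop :=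
  ∃ σ : Fin (r + 1) → MvPolynomial (Fin c) K, (∀ a, (σ a).totalDegree ≤ c) ∧
    (∀ t : Fin c → K, eval (fun a => eval t (σ a)) F = 0) ∧
    ∃ g : MvPolynomial (Fin (r + 1)) K, g.totalDegree ≤ c ∧
      (∃ x : Fin (r + 1) → K, eval x F = 0 ∧ eval x g ≠ 0) ∧
      ∀ x : Fin (r + 1) → K, eval x F = 0 → eval x g ≠ 0 →
        ∃ t : Fin c → K, (fun a => eval t (σ a)) = x

/-- The points `x` and `y` of `F = 0` are joined, in `F = 0`, by a rational curve, given by polynomials of
degree at most `e`. -/
def Joined (e : ℕ) (F : MvPolynomial (Fin (r + 1)) K) (x y : Fin (r + 1) → K) : Prop :=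
  ∃ τ : Fin (r + 1) → MvPolynomial (Fin 1) K, (∀ a, (τ a).totalDegree ≤ e) ∧
    (∀ s : Fin 1 → K, eval (fun a => eval s (τ a)) F = 0) ∧
    (fun a => eval (fun _ => 0) (τ a)) = x ∧ (fun a => eval (fun _ => 1) (τ a)) = y

/-- Two points in general position, outside the zeros of a polynomial of degree at most `e`, are joined by
a rational curve of degree at most `e`. -/
def ConnectedBy (e : ℕ) (F : MvPolynomial (Fin (r + 1)) K) : Prop :=
  ∃ G : MvPolynomial (Fin (r + 1) ⊕ Fin (r + 1)) K, G.totalDegree ≤ e ∧
    (∃ x y : Fin (r + 1) → K, eval x F = 0 ∧ eval y F = 0 ∧ eval (Sum.elim x y) G ≠ 0) ∧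
    ∀ x y : Fin (r + 1) → K, eval x F = 0 → eval y F = 0 → eval (Sum.elim x y) G ≠ 0 →
      Joined e F x y

/-- `F = 0` is rationally connected: over every algebraically closed extension two points in general
position are joined by a rational curve. -/
def RationallyConnected (F : MvPolynomial (Fin (r + 1)) K) : Prop :=
  ∀ (E : Type) [Field E] [IsAlgClosed E] [Algebra K E],
    ∃ G : MvPolynomial (Fin (r + 1) ⊕ Fin (r + 1)) E,
      (∃ x y : Fin (r + 1) → E, eval x (map (algebraMap K E) F) = 0 ∧
        eval y (map (algebraMap K E) F) = 0 ∧ eval (Sum.elim x y) G ≠ 0) ∧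
      ∀ x y : Fin (r + 1) → E, eval x (map (algebraMap K E) F) = 0 →
        eval y (map (algebraMap K E) F) = 0 → eval (Sum.elim x y) G ≠ 0 →
          ∃ e, Joined e (map (algebraMap K E) F) x y

end Pool.Agent.H837.UR
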