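import Pool.Agent.H837.UR.Rel
import Pool.Agent.H837.UR.Defs

/-!
# Unirationality and rational curves in ultraproducts
-/

set_option autoImplicit false

namespace Pool.Agent.H837.UR

open MvPolynomial Pool.Agent.H837.UF
open Filter hiding map

section Field

variable {K : Type} [Field K] {r : ℕ}

theorem Unirational.mono {c c' : ℕ} (hcc : c ≤ c') {F : MvPolynomial (Fin (r + 1)) K}
    (h : Unirational c F) : Unirational c' F := by
  obtain ⟨σ, h1, h2, g, h3, h4, h5⟩ := h
  have key : ∀ (t : Fin c' → K) (a : Fin (r + 1)),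
      eval t (rename (Fin.castLE hcc) (σ a)) = eval (fun i => t (Fin.castLE hcc i)) (σ a) := by
    intro t a
    rw [eval_rename]
    rfl
  refine ⟨fun a => rename (Fin.castLE hcc) (σ a), fun a => ?_, fun t => ?_, g, h3.trans hcc, h4,
    fun x hx hg => ?_⟩
  · exact (totalDegree_rename_le _ _).trans ((h1 a).trans hcc)
  · simp only [key]
    exact h2 _
  · obtain ⟨t, ht⟩ := h5 x hx hg
    refine ⟨fun i => if hi : (i : ℕ) < c then t ⟨i, hi⟩ else 0, ?_⟩
    have ht' : (fun i : Fin c => (fun i : Fin c' => if hi : (i : ℕ) < c then t ⟨i, hi⟩ else 0)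
        (Fin.castLE hcc i)) = t := by
      funext i
      have hi : ((Fin.castLE hcc i : Fin c') : ℕ) < c := i.2
      simp only
      rw [dif_pos hi]
      rfl
    rw [← ht]
    funext a
    rw [key, ht']

theorem Joined.mono {e e' : ℕ} (hee : e ≤ e') {F : MvPolynomial (Fin (r + 1)) K}
    {x y : Fin (r + 1) → K} (h : Joined e F x y) : Joined e' F x y := by
  obtain ⟨τ, h1, h2⟩ := h
  exact ⟨τ, fun a => (h1 a).trans hee, h2⟩

/-- A polynomial which is a product of polynomials of bounded degree only in the trivial way. -/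
def Irr (d : ℕ) (F : MvPolynomial (Fin (r + 1)) K) : Prop :=
  (¬ ∃ a, F = C a) ∧ ¬ ∃ G : MvPolynomial (Fin (r + 1)) K, G.totalDegree ≤ d ∧
    ∃ H : MvPolynomial (Fin (r + 1)) K, H.totalDegree ≤ d ∧
      (F = G * H ∧ (¬ ∃ a, G = C a) ∧ ¬ ∃ a, H = C a)

theorem isUnit_of_ne {G : MvPolynomial (Fin (r + 1)) K} (h0 : G ≠ 0) (h : ∃ a, G = C a) :
    IsUnit G := by
  obtain ⟨a, rfl⟩ := h
  have h1 : a ≠ 0 := fun h2 => h0 (by rw [h2, C_0])
  exact (isUnit_iff_ne_zero.mpr h1).map C

theorem eq_C_of_isUnit {G : MvPolynomial (Fin (r + 1)) K} (h : IsUnit G) : ∃ a, G = C a := by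
  have h1 : G.totalDegree = 0 := by
    obtain ⟨H, hH⟩ := h.exists_right_inv
    have hG : G ≠ 0 := h.ne_zero
    have hH0 : H ≠ 0 := by
      rintro rfl
      rw [mul_zero] at hH
      exact zero_ne_one hH
    have h2 := totalDegree_mul_of_isDomain hG hH0
    rw [hH, totalDegree_one] at h2
    omega
  exact ⟨_, totalDegree_eq_zero_iff_eq_C.mp h1⟩

theorem irreducible_iff_irr {d : ℕ} {F : MvPolynomial (Fin (r + 1)) K} (hF : F.totalDegree ≤ d) :
    Irreducible F ↔ Irr d F := by
  constructor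
  · intro h
    refine ⟨fun hC => h.not_isUnit (isUnit_of_ne h.ne_zero hC), ?_⟩
    rintro ⟨G, -, H, -, hGH, hG, hH⟩
    rcases h.isUnit_or_isUnit hGH with h1 | h1
    · exact hG (eq_C_of_isUnit h1)
    · exact hH (eq_C_of_isUnit h1)
  · rintro ⟨h1, h2⟩
    have h0 : F ≠ 0 := fun h3 => h1 ⟨0, by rw [h3, C_0]⟩
    refine ⟨fun hu => h1 (eq_C_of_isUnit hu), fun G H hGH => ?_⟩
    have hG0 : G ≠ 0 := fun h3 => h0 (by rw [hGH, h3, zero_mul])
    have hH0 : H ≠ 0 := fun h3 => h0 (by rw [hGH, h3, mul_zero])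
    have h3 := totalDegree_mul_of_isDomain hG0 hH0
    rw [← hGH] at h3
    by_contra hcon
    push Not at hcon
    exact h2 ⟨G, by omega, H, by omega, hGH, fun h4 => hcon.1 (isUnit_of_ne hG0 h4),
      fun h4 => hcon.2 (isUnit_of_ne hH0 h4)⟩

end Field

variable {J : Type} {U : Ultrafilter J} {K : J → Type} [∀ j, Field (K j)] {L : Type} [Field L]
  {π : (∀ j, K j) →+* L} (hπ : IsUltra U π) {r : ℕ}

include hπ

theorem comp_iff {κ τ : Type} (t : κ → ∀ j, K j) (Q : τ → MvPolynomial κ (∀ j, K j))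
    (F : MvPolynomial τ (∀ j, K j)) :
    eval (fun a => eval (fun i => π (t i)) (map π (Q a))) (map π F) = 0 ↔
      ∀ᶠ j in U, eval (fun a => eval (fun i => t i j) (map (Pi.evalRingHom K j) (Q a)))
        (map (Pi.evalRingHom K j) F) = 0 := by
  have h1 : (fun a => eval (fun i => π (t i)) (map π (Q a))) = fun a => π (eval t (Q a)) :=
    _root_.funext fun a => eval_pi t (Q a)
  rw [h1, zero_iff hπ]
  refine eventually_congr (Eventually.of_forall fun j => ?_)
  have h2 : (fun a => (eval t (Q a) : ∀ j, K j) j) =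
      fun a => eval (fun i => t i j) (map (Pi.evalRingHom K j) (Q a)) :=
    _root_.funext fun a => eval_ev t (Q a) j
  rw [h2]

theorem value_iff {κ τ : Type} [Finite τ] (t : κ → ∀ j, K j) (Q : τ → MvPolynomial κ (∀ j, K j))
    (x : τ → ∀ j, K j) :
    ((fun a => eval (fun i => π (t i)) (map π (Q a))) = fun a => π (x a)) ↔
      ∀ᶠ j in U, (fun a => eval (fun i => t i j) (map (Pi.evalRingHom K j) (Q a))) =
        fun a => x a j := by
  have h1 : (fun a => eval (fun i => π (t i)) (map π (Q a))) = fun a => π (eval t (Q a)) :=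
    _root_.funext fun a => eval_pi t (Q a)
  rw [h1, vec_eq hπ]
  refine eventually_congr (Eventually.of_forall fun j => ?_)
  have h2 : (fun a => (eval t (Q a) : ∀ j, K j) j) =
      fun a => eval (fun i => t i j) (map (Pi.evalRingHom K j) (Q a)) :=
    _root_.funext fun a => eval_ev t (Q a) j
  rw [h2]

theorem unirational_los (c : ℕ) (F : MvPolynomial (Fin (r + 1)) (∀ j, K j)) :
    Unirational c (map π F) ↔ ∀ᶠ j in U, Unirational c (map (Pi.evalRingHom K j) F) := by
  refine ex_poly hπ c fun Q => and_iff (all_vec hπ fun t => comp_iff hπ t Q F) ?_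
  refine ex_one hπ c fun g => and_iff (ex_vec hπ fun x => ?_) (all_vec hπ fun x => ?_)
  · exact and_iff (zero_iff hπ x F) (not_iff (zero_iff hπ x g))
  · exact imp_iff (zero_iff hπ x F) (imp_iff (not_iff (zero_iff hπ x g))
      (ex_vec hπ fun t => value_iff hπ t Q x))

theorem joined_los (e : ℕ) (F : MvPolynomial (Fin (r + 1)) (∀ j, K j))
    (x y : Fin (r + 1) → ∀ j, K j) :
    Joined e (map π F) (fun a => π (x a)) (fun a => π (y a)) ↔
      ∀ᶠ j in U, Joined e (map (Pi.evalRingHom K j) F) (fun a => x a j) fun a => y a j := by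
  refine ex_poly hπ e fun Q => and_iff (all_vec hπ fun t => comp_iff hπ t Q F) ?_
  refine and_iff ?_ ?_
  · have h1 := value_iff hπ (fun _ : Fin 1 => (0 : ∀ j, K j)) Q x
    simp only [map_zero] at h1
    exact h1
  · have h1 := value_iff hπ (fun _ : Fin 1 => (1 : ∀ j, K j)) Q y
    simp only [map_one] at h1
    exact h1

theorem pair_iff (G : MvPolynomial (Fin (r + 1) ⊕ Fin (r + 1)) (∀ j, K j))
    (x y : Fin (r + 1) → ∀ j, K j) :
    eval (Sum.elim (fun a => π (x a)) fun a => π (y a)) (map π G) = 0 ↔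
      ∀ᶠ j in U, eval (Sum.elim (fun a => x a j) fun a => y a j) (map (Pi.evalRingHom K j) G) = 0 := by
  have h1 : (Sum.elim (fun a => π (x a)) fun a => π (y a)) = fun i => π (Sum.elim x y i) := by
    funext i
    rcases i with i | i <;> rfl
  have h2 : ∀ j, (Sum.elim (fun a => x a j) fun a => y a j) = fun i => Sum.elim x y i j := by
    intro j
    funext i
    rcases i with i | i <;> rfl
  rw [h1, zero_iff hπ]
  refine eventually_congr (Eventually.of_forall fun j => ?_)
  rw [h2]

theorem connected_los (e : ℕ) (F : MvPolynomial (Fin (r + 1)) (∀ j, K j)) :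
    ConnectedBy e (map π F) ↔ ∀ᶠ j in U, ConnectedBy e (map (Pi.evalRingHom K j) F) := by
  refine ex_one hπ e fun G => and_iff (ex_vec hπ fun x => ex_vec hπ fun y => ?_)
    (all_vec hπ fun x => all_vec hπ fun y => ?_)
  · exact and_iff (zero_iff hπ x F) (and_iff (zero_iff hπ y F) (not_iff (pair_iff hπ G x y)))
  · exact imp_iff (zero_iff hπ x F) (imp_iff (zero_iff hπ y F)
      (imp_iff (not_iff (pair_iff hπ G x y)) (joined_los hπ e F x y)))

theorem const_iff (F : MvPolynomial (Fin (r + 1)) (∀ j, K j)) :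
    (∃ a, map π F = C a) ↔ ∀ᶠ j in U, ∃ a, map (Pi.evalRingHom K j) F = C a := by
  have h1 := ex_vec hπ (κ := Unit) (A := fun v => map π F = C (v ()))
    (B := fun j v => map (Pi.evalRingHom K j) F = C (v ())) (fun w => by
      have h2 : (C (π (w ())) : MvPolynomial (Fin (r + 1)) L) = map π (C (w ())) := (map_C _ _).symm
      rw [h2, hπ.mv_eq]
      refine eventually_congr (Eventually.of_forall fun j => ?_)
      rw [map_C]
      rfl)
  constructor
  · rintro ⟨a, ha⟩
    filter_upwards [h1.mp ⟨fun _ => a, ha⟩] with j hj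
    exact ⟨_, hj.choose_spec⟩
  · intro h
    obtain ⟨v, hv⟩ := h1.mpr (by
      filter_upwards [h] with j hj
      exact ⟨fun _ => hj.choose, hj.choose_spec⟩)
    exact ⟨_, hv⟩

theorem irr_los (d : ℕ) (F : MvPolynomial (Fin (r + 1)) (∀ j, K j)) :
    Irr d (map π F) ↔ ∀ᶠ j in U, Irr d (map (Pi.evalRingHom K j) F) := by
  refine and_iff (not_iff (const_iff hπ F)) (not_iff ?_)
  refine ex_one hπ d fun G => ex_one hπ d fun H => and_iff ?_ (and_iff (not_iff (const_iff hπ G))
    (not_iff (const_iff hπ H)))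
  rw [← map_mul, hπ.mv_eq]
  refine eventually_congr (Eventually.of_forall fun j => ?_)
  rw [map_mul]

end Pool.Agent.H837.UR
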