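import Pool.Agent.H837.SP.Uniform
import Pool.Agent.H837.UR.El

/-!
# Uniformity of unirationality
-/

set_option autoImplicit false

namespace Pool.Agent.H837.UR

open MvPolynomial Pool.Agent.H837.UF Pool.Agent.H837.SP
open Filter hiding map

/-- Compatibility of a property of polynomials over algebraically closed fields with ultraproducts. -/
def IsLos {r : ℕ} (P : ∀ (K : Type) [Field K], MvPolynomial (Fin (r + 1)) K → Prop) : Prop :=
  ∀ (J : Type) (U : Ultrafilter J) (K : J → Type) [∀ j, Field (K j)] [∀ j, IsAlgClosed (K j)]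
    (L : Type) [Field L] (π : (∀ j, K j) →+* L), IsUltra U π →
      ∀ F : MvPolynomial (Fin (r + 1)) (∀ j, K j),
        (P L (map π F) ↔ ∀ᶠ j in U, P (K j) (map (Pi.evalRingHom K j) F))

theorem IsLos.elementary {r : ℕ} {P : ∀ (K : Type) [Field K], MvPolynomial (Fin (r + 1)) K → Prop}
    (hP : IsLos P) {R : Type} [CommRing R] (F : MvPolynomial (Fin (r + 1)) R) :
    Elementary (R := R) (fun K _ φ => P K (map φ F)) := by
  intro J U K _ _ L _ π hπ φ
  have h1 : map (π.comp (RingHom.pi φ)) F = map π (map (RingHom.pi φ) F) := (MvPolynomial.map_map _ _ _).symm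
  have h2 : ∀ j, map (φ j) F = map (Pi.evalRingHom K j) (map (RingHom.pi φ) F) := by
    intro j
    have h3 : (Pi.evalRingHom K j).comp (RingHom.pi φ) = φ j := RingHom.ext fun _ => rfl
    rw [MvPolynomial.map_map, h3]
  show P L (map (π.comp (RingHom.pi φ)) F) ↔ ∀ᶠ j in U, P (K j) (map (φ j) F)
  rw [h1, hP J U K L π hπ]
  refine eventually_congr (Eventually.of_forall fun j => ?_)
  rw [h2]

theorem unirational_isLos (r c : ℕ) : IsLos (r := r) fun _ _ F => Unirational c F :=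
  fun _ _ _ _ _ _ _ _ hπ F => unirational_los hπ c F

theorem connected_isLos (r e : ℕ) : IsLos (r := r) fun _ _ F => ConnectedBy e F :=
  fun _ _ _ _ _ _ _ _ hπ F => connected_los hπ e F

theorem uniform_isLos (r d e c : ℕ) :
    IsLos (r := r) fun _ _ F => Irr d F → ConnectedBy e F → Unirational c F :=
  fun _ _ _ _ _ _ _ _ hπ F => imp_iff (irr_los hπ d F) (imp_iff (connected_los hπ e F)
    (unirational_los hπ c F))

/-! ### The generic form -/

/-- The exponents of the monomials of degree `d`. -/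
abbrev Expo (r d : ℕ) : Type :=
  {μ : Fin (r + 1) →₀ ℕ // μ ∈ Finset.finsuppAntidiag Finset.univ d}

/-- The generic form of degree `d`. -/
noncomputable def generic (r d : ℕ) : MvPolynomial (Fin (r + 1)) (MvPolynomial (Expo r d) ℤ) :=
  ∑ μ : Expo r d, monomial μ.1 (X μ)

theorem generic_isHomogeneous (r d : ℕ) : (generic r d).IsHomogeneous d := by
  refine IsHomogeneous.sum _ _ _ fun μ _ => isHomogeneous_monomial _ ?_
  have hμ := μ.2
  rw [Finset.mem_finsuppAntidiag] at hμ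
  rw [Finsupp.degree_eq_sum]
  exact hμ.1

theorem exists_hom {K : Type} [Field K] {r d : ℕ} {F : MvPolynomial (Fin (r + 1)) K}
    (hF : F.IsHomogeneous d) :
    ∃ t : MvPolynomial (Expo r d) ℤ →+* K, map t (generic r d) = F := by
  classical
  refine ⟨eval₂Hom (Int.castRingHom K) fun μ => coeff μ.1 F, ?_⟩
  rw [generic, map_sum]
  have h1 : ∀ μ : Expo r d, map (eval₂Hom (Int.castRingHom K) fun μ : Expo r d => coeff μ.1 F)
      (monomial μ.1 (X μ)) = monomial μ.1 (coeff μ.1 F) := by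
    intro μ
    rw [map_monomial]
    congr 1
    exact eval₂Hom_X' _ _ _
  rw [Finset.sum_congr rfl fun μ _ => h1 μ]
  rw [Finset.sum_coe_sort (Finset.finsuppAntidiag Finset.univ d)
    (fun μ : Fin (r + 1) →₀ ℕ => monomial μ (coeff μ F))]
  ext ν
  rw [coeff_sum]
  simp only [coeff_monomial]
  rw [Finset.sum_ite_eq']
  by_cases hν : ν ∈ Finset.finsuppAntidiag Finset.univ d
  · rw [if_pos hν]
  · rw [if_neg hν]
    by_contra hcon
    apply hν
    rw [Finset.mem_finsuppAntidiag]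
    refine ⟨?_, Finset.subset_univ _⟩
    have h2 := hF (Ne.symm hcon)
    rw [← h2, ← Finsupp.degree_eq_sum]
    exact (DFunLike.congr_fun Finsupp.degree_eq_weight_one ν)

/-! ### Rational connectedness -/

theorem connectedBy_extend {K E : Type} [Field K] [IsAlgClosed K] [Field E] [IsAlgClosed E]
    (ι : K →+* E) {r e : ℕ} {F : MvPolynomial (Fin (r + 1)) K} (h : ConnectedBy e F) :
    ConnectedBy e (map ι F) := by
  have h1 := ((connected_isLos r e).elementary F).of_ker_eq (K := K) (K' := E)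
    (φ := RingHom.id K) (φ' := ι) (by
      rw [(RingHom.injective_iff_ker_eq_bot _).mp (RingHom.injective (RingHom.id K)),
        (RingHom.injective_iff_ker_eq_bot _).mp (RingHom.injective ι)])
  refine h1 ?_
  rw [MvPolynomial.map_id]
  exact h

theorem rationallyConnected_iff {K : Type} [Field K] [IsAlgClosed K] {r : ℕ}
    (F : MvPolynomial (Fin (r + 1)) K) :
    RationallyConnected F ↔ ∃ e, ConnectedBy e F := by
  constructor
  · intro h
    by_contra hcon
    push Not at hcon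
    let U : Ultrafilter ℕ := hyperfilter ℕ
    let q : (ℕ → K) →+* UProd (K := fun _ : ℕ => K) U := Ideal.Quotient.mk _
    have hq : IsUltra U q := ⟨Ideal.Quotient.mk_surjective, fun a => UF.mk_eq_zero _ a⟩
    let D : K →+* (ℕ → K) := RingHom.pi fun _ => RingHom.id K
    let _ : Algebra K (UProd (K := fun _ : ℕ => K) U) := (q.comp D).toAlgebra
    obtain ⟨G, ⟨x0, y0, hx0, hy0, hG0⟩, hall⟩ := h (UProd (K := fun _ : ℕ => K) U)
    have hF : map (algebraMap K (UProd (K := fun _ : ℕ => K) U)) F = map q (map D F) :=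
      (MvPolynomial.map_map _ _ _).symm
    have hFj : ∀ j, map (Pi.evalRingHom (fun _ : ℕ => K) j) (map D F) = F := by
      intro j
      rw [MvPolynomial.map_map]
      exact MvPolynomial.map_id F
    rw [hF] at hx0 hy0 hall
    obtain ⟨Q, hQ, rfl⟩ := exists_lift_le hq G
    obtain ⟨x, rfl⟩ : ∃ x : Fin (r + 1) → ℕ → K, (fun a => q (x a)) = x0 := by
      choose x hx using fun a => hq.surj (x0 a)
      exact ⟨x, funext hx⟩
    obtain ⟨y, rfl⟩ : ∃ y : Fin (r + 1) → ℕ → K, (fun a => q (y a)) = y0 := by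
      choose y hy using fun a => hq.surj (y0 a)
      exact ⟨y, funext hy⟩
    have h1 := (zero_iff hq x (map D F)).mp hx0
    have h2 := (zero_iff hq y (map D F)).mp hy0
    have h3 := (not_iff (pair_iff hq Q x y)).mp hG0
    have h4 : ∀ᶠ j : ℕ in U, (map q Q).totalDegree ≤ j :=
      Nat.hyperfilter_le_atTop (eventually_ge_atTop _)
    have h5 : ∀ᶠ j : ℕ in U, ∃ z : (Fin (r + 1) → K) × (Fin (r + 1) → K), eval z.1 F = 0 ∧
        eval z.2 F = 0 ∧
        eval (Sum.elim z.1 z.2) (map (Pi.evalRingHom (fun _ : ℕ => K) j) Q) ≠ 0 ∧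
        ¬ Joined j F z.1 z.2 := by
      filter_upwards [h1, h2, h3, h4] with j e1 e2 e3 e4
      rw [hFj] at e1 e2
      by_contra hno
      push Not at hno
      exact hcon j ⟨map (Pi.evalRingHom (fun _ : ℕ => K) j) Q,
        (totalDegree_map _ _).trans (hQ.trans e4), ⟨_, _, e1, e2, e3⟩,
        fun x y hx hy hxy => hno (x, y) hx hy hxy⟩
    obtain ⟨z, hz⟩ := eventually_choose h5
    obtain ⟨e, he⟩ := hall (fun a => q fun j => (z j).1 a) (fun a => q fun j => (z j).2 a)
      ((zero_iff hq (fun a j => (z j).1 a) (map D F)).mpr (by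
        filter_upwards [hz] with j hj
        rw [hFj]
        exact hj.1))
      ((zero_iff hq (fun a j => (z j).2 a) (map D F)).mpr (by
        filter_upwards [hz] with j hj
        rw [hFj]
        exact hj.2.1))
      ((not_iff (pair_iff hq Q (fun a j => (z j).1 a) fun a j => (z j).2 a)).mpr (by
        filter_upwards [hz] with j hj
        exact hj.2.2.1))
    have h6 := (joined_los hq e (map D F) (fun a j => (z j).1 a) fun a j => (z j).2 a).mp he
    have h7 : ∀ᶠ j : ℕ in U, e ≤ j := Nat.hyperfilter_le_atTop (eventually_ge_atTop _)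
    obtain ⟨j, ⟨hj1, hj2⟩, hj3⟩ := ((hz.and h6).and h7).exists
    rw [hFj] at hj2
    exact hj1.2.2.2 (hj2.mono hj3)
  · rintro ⟨e, he⟩ E _ _ _
    obtain ⟨G, -, hG, hall⟩ := connectedBy_extend (algebraMap K E) he
    exact ⟨G, hG, fun x y hx hy hxy => ⟨e, hall x y hx hy hxy⟩⟩

/-- Q1 over the field `K`. -/
def Question (K : Type) [Field K] : Prop :=
  ∀ (r d : ℕ) (F : MvPolynomial (Fin (r + 1)) K), F.IsHomogeneous d → Irreducible F →
    RationallyConnected F → ∃ c, Unirational c F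

theorem finiteType_int (ι : Type) [Finite ι] :
    @Algebra.FiniteType ℤ (MvPolynomial ι ℤ) _ _ (Ring.toIntAlgebra _) := by
  have key : ∀ A B : Algebra ℤ (MvPolynomial ι ℤ), @Algebra.FiniteType ℤ _ _ _ A →
      @Algebra.FiniteType ℤ _ _ _ B := by
    intro A B h
    have h1 : A = B := Subsingleton.elim _ _
    rw [← h1]
    exact h
  exact key _ _ inferInstance

theorem family_tfae (r d e : ℕ) :
    [∀ F : MvPolynomial (Fin (r + 1)) ℂ, F.IsHomogeneous d → Irreducible F → ConnectedBy e F →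
       ∃ c, Unirational c F,
     ∃ c M : ℕ, M ≠ 0 ∧ ∀ (K : Type) [Field K] [IsAlgClosed K], (M : K) ≠ 0 →
       ∀ F : MvPolynomial (Fin (r + 1)) K, F.IsHomogeneous d → Irreducible F → ConnectedBy e F →
         Unirational c F,
     ∃ c ℓ₀ : ℕ, ∀ (ℓ : ℕ) [Fact ℓ.Prime], ℓ₀ ≤ ℓ →
       ∀ F : MvPolynomial (Fin (r + 1)) (AlgebraicClosure (ZMod ℓ)), F.IsHomogeneous d →
         Irreducible F → ConnectedBy e F → Unirational c F,
     ∃ c : ℕ, ∀ ℓ₀ : ℕ, ∃ (ℓ : ℕ) (_ : Fact ℓ.Prime), ℓ₀ ≤ ℓ ∧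
       ∀ F : MvPolynomial (Fin (r + 1)) (AlgebraicClosure (ZMod ℓ)), F.IsHomogeneous d →
         Irreducible F → ConnectedBy e F → Unirational c F].TFAE := by
  have hfin : Finite (Expo r d) := Finite.of_fintype (Expo r d)
  have hft := finiteType_int (Expo r d)
  have hT := uniform_tfae (R := MvPolynomial (Expo r d) ℤ)
    (Q := fun c K _ t => Irr d (map t (generic r d)) → ConnectedBy e (map t (generic r d)) →
      Unirational c (map t (generic r d)))
    (fun c => (uniform_isLos r d e c).elementary (generic r d))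
    (fun c c' hcc K _ φ h h1 h2 => (h h1 h2).mono hcc)
  have hdeg : ∀ (K : Type) [Field K] (t : MvPolynomial (Expo r d) ℤ →+* K),
      (map t (generic r d)).IsHomogeneous d := fun K _ t => (generic_isHomogeneous r d).map t
  have key : ∀ (c : ℕ) (K : Type) [Field K],
      (∀ t : MvPolynomial (Expo r d) ℤ →+* K, Irr d (map t (generic r d)) →
        ConnectedBy e (map t (generic r d)) → Unirational c (map t (generic r d))) ↔
      ∀ F : MvPolynomial (Fin (r + 1)) K, F.IsHomogeneous d → Irreducible F → ConnectedBy e F →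
        Unirational c F := by
    intro c K _
    constructor
    · intro h F hF hirr hcon
      obtain ⟨t, rfl⟩ := exists_hom hF
      exact h t ((irreducible_iff_irr hF.totalDegree_le).mp hirr) hcon
    · intro h t h1 h2
      exact h _ (hdeg K t) ((irreducible_iff_irr (hdeg K t).totalDegree_le).mpr h1) h2
  tfae_have 1 → 2 := by
    intro h
    obtain ⟨c, M, hM, hc⟩ := (hT.out 0 2).mp fun t => by
      by_cases h1 : Irr d (map t (generic r d))
      · by_cases h2 : ConnectedBy e (map t (generic r d))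
        · obtain ⟨c, hc⟩ := h _ (hdeg ℂ t)
            ((irreducible_iff_irr (hdeg ℂ t).totalDegree_le).mpr h1) h2
          exact ⟨c, fun _ _ => hc⟩
        · exact ⟨0, fun _ h3 => absurd h3 h2⟩
      · exact ⟨0, fun h3 => absurd h3 h1⟩
    exact ⟨c, M, hM, fun K _ _ hMK => (key c K).mp fun t => hc K t hMK⟩
  tfae_have 2 → 3 := by
    rintro ⟨c, M, hM, hc⟩
    refine ⟨c, M + 1, fun ℓ hℓ hle => hc _ ?_⟩
    intro h0
    rw [CharP.cast_eq_zero_iff (AlgebraicClosure (ZMod ℓ)) ℓ] at h0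
    have h3 := Nat.le_of_dvd (Nat.pos_of_ne_zero hM) h0
    omega
  tfae_have 3 → 4 := by
    rintro ⟨c, ℓ₀, hc⟩
    refine ⟨c, fun ℓ₁ => ?_⟩
    obtain ⟨ℓ, hle, hℓ⟩ := Nat.exists_infinite_primes (max ℓ₀ ℓ₁)
    have hf : Fact ℓ.Prime := ⟨hℓ⟩
    exact ⟨ℓ, hf, (le_max_right _ _).trans hle, hc ℓ ((le_max_left _ _).trans hle)⟩
  tfae_have 4 → 1 := by
    rintro ⟨c, hc⟩
    have h41 := hT.out 4 1
    obtain ⟨c', hc'⟩ := h41.mp ⟨c, fun ℓ₀ => by
      obtain ⟨ℓ, hf, hle, h⟩ := hc ℓ₀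
      exact ⟨ℓ, hf, hle, (key c _).mpr h⟩⟩
    intro F hF h1 h2
    exact ⟨c', (key c' ℂ).mp hc' F hF h1 h2⟩
  tfae_finish

/-- **Q1 and bounded degrees over algebraic closures of finite fields.** -/
theorem question_tfae :
    [∀ (K : Type) [Field K] [IsAlgClosed K] [CharZero K], Question K,
     Question ℂ,
     ∀ r d e : ℕ, ∃ c M : ℕ, M ≠ 0 ∧ ∀ (K : Type) [Field K] [IsAlgClosed K], (M : K) ≠ 0 →
       ∀ F : MvPolynomial (Fin (r + 1)) K, F.IsHomogeneous d → Irreducible F → ConnectedBy e F →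
         Unirational c F,
     ∀ r d e : ℕ, ∃ c ℓ₀ : ℕ, ∀ (ℓ : ℕ) [Fact ℓ.Prime], ℓ₀ ≤ ℓ →
       ∀ F : MvPolynomial (Fin (r + 1)) (AlgebraicClosure (ZMod ℓ)), F.IsHomogeneous d →
         Irreducible F → ConnectedBy e F → Unirational c F,
     ∀ r d e : ℕ, ∃ c : ℕ, ∀ ℓ₀ : ℕ, ∃ (ℓ : ℕ) (_ : Fact ℓ.Prime), ℓ₀ ≤ ℓ ∧
       ∀ F : MvPolynomial (Fin (r + 1)) (AlgebraicClosure (ZMod ℓ)), F.IsHomogeneous d →
         Irreducible F → ConnectedBy e F → Unirational c F].TFAE := by
  tfae_have 1 → 2 := fun h => h ℂ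
  tfae_have 2 → 3 := by
    intro h r d e
    exact ((family_tfae r d e).out 0 1).mp fun F hF h1 h2 =>
      h r d F hF h1 ((rationallyConnected_iff F).mpr ⟨e, h2⟩)
  tfae_have 3 → 1 := by
    intro h K _ _ _ r d F hF h1 h2
    obtain ⟨e, he⟩ := (rationallyConnected_iff F).mp h2
    obtain ⟨c, M, hM, hc⟩ := h r d e
    exact ⟨c, hc K (Nat.cast_ne_zero.mpr hM) F hF h1 he⟩
  tfae_have 3 ↔ 4 := forall_congr' fun r => forall_congr' fun d => forall_congr' fun e =>
    (family_tfae r d e).out 1 2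
  tfae_have 3 ↔ 5 := forall_congr' fun r => forall_congr' fun d => forall_congr' fun e =>
    (family_tfae r d e).out 1 3
  tfae_finish

/-- Reductions of one hypersurface over the rational numbers. -/
theorem reductions_tfae {r : ℕ} (F : MvPolynomial (Fin (r + 1)) ℤ) :
    [∃ c, Unirational c (map (Int.castRingHom ℂ) F),
     ∃ c ℓ₀ : ℕ, ∀ (ℓ : ℕ) [Fact ℓ.Prime], ℓ₀ ≤ ℓ →
       Unirational c (map (Int.castRingHom (AlgebraicClosure (ZMod ℓ))) F),
     ∃ c : ℕ, ∀ ℓ₀ : ℕ, ∃ (ℓ : ℕ) (_ : Fact ℓ.Prime), ℓ₀ ≤ ℓ ∧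
       Unirational c (map (Int.castRingHom (AlgebraicClosure (ZMod ℓ))) F)].TFAE := by
  have hT := uniform_tfae (R := ℤ) (Q := fun c K _ t => Unirational c (map t F))
    (fun c => (unirational_isLos r c).elementary F) (fun c c' hcc K _ φ h => h.mono hcc)
  have key : ∀ (K : Type) [Field K] (t : ℤ →+* K), t = Int.castRingHom K := fun K _ t =>
    RingHom.ext_int _ _
  tfae_have 1 ↔ 2 := by
    have h1 := hT.out 0 3
    constructor
    · intro h
      obtain ⟨c, ℓ₀, hc⟩ := h1.mp fun t => by rw [key ℂ t]; exact h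
      exact ⟨c, ℓ₀, fun ℓ _ hle => hc ℓ hle _⟩
    · rintro ⟨c, ℓ₀, hc⟩
      exact (key ℂ (Int.castRingHom ℂ)) ▸ h1.mpr ⟨c, ℓ₀, fun ℓ _ hle t => by rw [key _ t]; exact hc ℓ hle⟩ (Int.castRingHom ℂ)
  tfae_have 1 ↔ 3 := by
    have h1 := hT.out 0 4
    constructor
    · intro h
      obtain ⟨c, hc⟩ := h1.mp fun t => by rw [key ℂ t]; exact h
      refine ⟨c, fun ℓ₀ => ?_⟩
      obtain ⟨ℓ, hf, hle, hℓ⟩ := hc ℓ₀
      exact ⟨ℓ, hf, hle, hℓ _⟩
    · rintro ⟨c, hc⟩
      refine h1.mpr ⟨c, fun ℓ₀ => ?_⟩ _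
      obtain ⟨ℓ, hf, hle, hℓ⟩ := hc ℓ₀
      exact ⟨ℓ, hf, hle, fun t => by rw [key _ t]; exact hℓ⟩
  tfae_finish

end Pool.Agent.H837.UR
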