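import Pool.Agent.H837.UR.Main
import Pool.Agent.H837.QB.Main

/-!
# The complex numbers as an ultrapower of the algebraic numbers
-/

set_option autoImplicit false

namespace Pool.Agent.H837.UR

open MvPolynomial Pool.Agent.H837.UF
open Filter hiding map

theorem exists_ultra_qbar :
    ∃ π : (ℕ → AlgebraicClosure ℚ) →+* ℂ, IsUltra (hyperfilter ℕ) π := by
  have hc : Countable (AlgebraicClosure ℚ) := QB.countable_qbar
  obtain ⟨π, h1, h2, -⟩ := exists_hom_over (K := fun _ : ℕ => AlgebraicClosure ℚ)
    (Int.castRingHom ℂ) Int.cast_injective (Int.castRingHom _) (by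
      intro x hx
      refine Eventually.of_forall fun j h0 => hx ?_
      have h3 : ((x : ℤ) : AlgebraicClosure ℚ) = 0 := h0
      exact Int.cast_eq_zero.mp h3)
  exact ⟨π, h1, h2⟩

end Pool.Agent.H837.UR
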