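import Pool.Agent.H837.UF.Los

/-!
# Quantifiers over vectors and polynomials in ultraproducts
-/

set_option autoImplicit false

namespace Pool.Agent.H837.UR

open MvPolynomial Pool.Agent.H837.UF
open Filter hiding map

theorem totalDegree_le_of_support {σ A B : Type} [CommSemiring A] [CommSemiring B]
    {P : MvPolynomial σ A} {Q : MvPolynomial σ B} (h : P.support ⊆ Q.support) :
    P.totalDegree ≤ Q.totalDegree := by
  rw [totalDegree, totalDegree]
  exact Finset.sup_mono h

theorem totalDegree_map {σ A B : Type} [CommSemiring A] [CommSemiring B] (f : A →+* B)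
    (P : MvPolynomial σ A) : (map f P).totalDegree ≤ P.totalDegree :=
  totalDegree_le_of_support (support_map_subset f P)

variable {J : Type} {U : Ultrafilter J} {K : J → Type} [∀ j, Field (K j)] {L : Type} [Field L]
  {π : (∀ j, K j) →+* L}

theorem eval_pi {σ : Type} (t : σ → ∀ j, K j) (Q : MvPolynomial σ (∀ j, K j)) :
    eval (fun i => π (t i)) (map π Q) = π (eval t Q) := by
  rw [eval_map]
  exact (eval₂_comp_left π (RingHom.id _) t Q).symm

theorem eval_ev {σ : Type} (t : σ → ∀ j, K j) (Q : MvPolynomial σ (∀ j, K j)) (j : J) :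
    (eval t Q : ∀ j, K j) j = eval (fun i => t i j) (map (Pi.evalRingHom K j) Q) := by
  rw [eval_map]
  exact eval₂_comp_left (Pi.evalRingHom K j) (RingHom.id _) t Q

/-- Glueing polynomials of bounded degree. -/
theorem exists_glue_le {σ : Type} [Fintype σ] [DecidableEq σ] (c : ℕ)
    (P : ∀ j, MvPolynomial σ (K j)) :
    ∃ Q : MvPolynomial σ (∀ j, K j), Q.totalDegree ≤ c ∧
      ∀ j, (P j).totalDegree ≤ c → map (Pi.evalRingHom K j) Q = P j := by
  choose Q hQ hQP using fun n : ℕ => exists_glue (N := n) fun j => homogeneousComponent n (P j)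
  refine ⟨∑ n ∈ Finset.range (c + 1), Q n, ?_, fun j hj => ?_⟩
  · refine (totalDegree_finsetSum _ _).trans (Finset.sup_le fun n hn => ?_)
    exact (hQ n).totalDegree_le.trans (Nat.lt_succ_iff.mp (Finset.mem_range.mp hn))
  · rw [map_sum]
    have h1 : ∀ n, map (Pi.evalRingHom K j) (Q n) = homogeneousComponent n (P j) := fun n =>
      hQP n j (homogeneousComponent_isHomogeneous n (P j))
    rw [Finset.sum_congr rfl fun n _ => h1 n]
    conv_rhs => rw [← sum_homogeneousComponent (P j)]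
    symm
    refine Finset.sum_subset ?_ fun n _ hn => ?_
    · intro n hn
      rw [Finset.mem_range] at hn ⊢
      omega
    · rw [Finset.mem_range] at hn
      exact homogeneousComponent_eq_zero n (P j) (by omega)

theorem and_iff {A B : Prop} {A' B' : J → Prop} (hA : A ↔ ∀ᶠ j in U, A' j)
    (hB : B ↔ ∀ᶠ j in U, B' j) : (A ∧ B) ↔ ∀ᶠ j in U, (A' j ∧ B' j) := by
  rw [hA, hB, eventually_and]

theorem not_iff {A : Prop} {A' : J → Prop} (hA : A ↔ ∀ᶠ j in U, A' j) :
    (¬ A) ↔ ∀ᶠ j in U, ¬ A' j := by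
  rw [hA, Ultrafilter.eventually_not]

theorem imp_iff {A B : Prop} {A' B' : J → Prop} (hA : A ↔ ∀ᶠ j in U, A' j)
    (hB : B ↔ ∀ᶠ j in U, B' j) : (A → B) ↔ ∀ᶠ j in U, (A' j → B' j) := by
  rw [hA, hB, Ultrafilter.eventually_imp]

variable (hπ : IsUltra U π)

include hπ

theorem exists_lift_le {σ : Type} (P : MvPolynomial σ L) :
    ∃ Q : MvPolynomial σ (∀ j, K j), Q.totalDegree ≤ P.totalDegree ∧ map π Q = P := by
  classical
  choose s hs using hπ.surj
  refine ⟨∑ μ ∈ P.support, monomial μ (s (coeff μ P)), ?_, ?_⟩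
  · refine totalDegree_le_of_support fun μ hμ => ?_
    rw [mem_support_iff, coeff_sum] at hμ
    by_contra hcon
    apply hμ
    refine Finset.sum_eq_zero fun ν hν => ?_
    rw [coeff_monomial, if_neg]
    rintro rfl
    exact hcon hν
  · rw [map_sum]
    conv_rhs => rw [P.as_sum]
    refine Finset.sum_congr rfl fun μ _ => ?_
    rw [map_monomial, hs]

theorem ex_vec {κ : Type} {A : (κ → L) → Prop} {B : ∀ j, (κ → K j) → Prop}
    (h : ∀ w : κ → ∀ j, K j, A (fun a => π (w a)) ↔ ∀ᶠ j in U, B j (fun a => w a j)) :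
    (∃ v, A v) ↔ ∀ᶠ j in U, ∃ v, B j v := by
  constructor
  · rintro ⟨v, hv⟩
    choose w hw using fun a => hπ.surj (v a)
    obtain rfl : (fun a => π (w a)) = v := funext hw
    filter_upwards [(h w).mp hv] with j hj
    exact ⟨_, hj⟩
  · intro hex
    obtain ⟨v, hv⟩ := eventually_choose hex
    exact ⟨fun a => π fun j => v j a, (h fun a j => v j a).mpr hv⟩

theorem all_vec {κ : Type} {A : (κ → L) → Prop} {B : ∀ j, (κ → K j) → Prop}
    (h : ∀ w : κ → ∀ j, K j, A (fun a => π (w a)) ↔ ∀ᶠ j in U, B j (fun a => w a j)) :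
    (∀ v, A v) ↔ ∀ᶠ j in U, ∀ v, B j v := by
  have h1 := ex_vec hπ (A := fun v => ¬ A v) (B := fun j v => ¬ B j v) (fun w => by
    rw [h w, Ultrafilter.eventually_not])
  rw [← not_iff_not, ← Ultrafilter.eventually_not]
  push Not
  exact h1

theorem ex_poly {κ σ : Type} [Fintype σ] [DecidableEq σ] (c : ℕ)
    {A : (κ → MvPolynomial σ L) → Prop} {B : ∀ j, (κ → MvPolynomial σ (K j)) → Prop}
    (h : ∀ Q : κ → MvPolynomial σ (∀ j, K j), A (fun a => map π (Q a)) ↔
      ∀ᶠ j in U, B j (fun a => map (Pi.evalRingHom K j) (Q a))) :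
    (∃ P, (∀ a, (P a).totalDegree ≤ c) ∧ A P) ↔
      ∀ᶠ j in U, ∃ P : κ → MvPolynomial σ (K j), (∀ a, (P a).totalDegree ≤ c) ∧ B j P := by
  constructor
  · rintro ⟨P, hP, hA⟩
    choose Q hQ hQP using fun a => exists_lift_le hπ (P a)
    obtain rfl : (fun a => map π (Q a)) = P := _root_.funext hQP
    filter_upwards [(h Q).mp hA] with j hj
    exact ⟨_, fun a => (totalDegree_map _ _).trans ((hQ a).trans (hP a)), hj⟩
  · intro hex
    obtain ⟨P, hP⟩ := eventually_choose hex
    choose Q hQ hQP using fun a => exists_glue_le c fun j => P j a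
    refine ⟨fun a => map π (Q a), fun a => (totalDegree_map _ _).trans (hQ a), (h Q).mpr ?_⟩
    filter_upwards [hP] with j hj
    have h1 : (fun a => map (Pi.evalRingHom K j) (Q a)) = P j :=
      _root_.funext fun a => hQP a j (hj.1 a)
    rw [h1]
    exact hj.2

theorem ex_one {σ : Type} [Fintype σ] [DecidableEq σ] (c : ℕ)
    {A : MvPolynomial σ L → Prop} {B : ∀ j, MvPolynomial σ (K j) → Prop}
    (h : ∀ Q : MvPolynomial σ (∀ j, K j), A (map π Q) ↔
      ∀ᶠ j in U, B j (map (Pi.evalRingHom K j) Q)) :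
    (∃ P, P.totalDegree ≤ c ∧ A P) ↔
      ∀ᶠ j in U, ∃ P : MvPolynomial σ (K j), P.totalDegree ≤ c ∧ B j P := by
  have h1 := ex_poly hπ (κ := Unit) (σ := σ) c (A := fun P => A (P ()))
    (B := fun j P => B j (P ())) fun Q => h (Q ())
  constructor
  · rintro ⟨P, hP, hA⟩
    filter_upwards [h1.mp ⟨fun _ => P, fun _ => hP, hA⟩] with j hj
    obtain ⟨P', hP', hB⟩ := hj
    exact ⟨P' (), hP' (), hB⟩
  · intro hex
    obtain ⟨P, hP, hA⟩ := h1.mpr (by
      filter_upwards [hex] with j hj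
      obtain ⟨P', hP', hB⟩ := hj
      exact ⟨fun _ => P', fun _ => hP', hB⟩)
    exact ⟨P (), hP (), hA⟩

theorem zero_iff {σ : Type} (t : σ → ∀ j, K j) (Q : MvPolynomial σ (∀ j, K j)) :
    eval (fun i => π (t i)) (map π Q) = 0 ↔
      ∀ᶠ j in U, eval (fun i => t i j) (map (Pi.evalRingHom K j) Q) = 0 := by
  rw [eval_pi, hπ.ker]
  refine eventually_congr (Eventually.of_forall fun j => ?_)
  rw [eval_ev]

theorem vec_eq {κ : Type} [Finite κ] (v w : κ → ∀ j, K j) :
    ((fun a => π (v a)) = fun a => π (w a)) ↔ ∀ᶠ j in U, (fun a => v a j) = fun a => w a j := by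
  have h1 : ((fun a => π (v a)) = fun a => π (w a)) ↔ ∀ a, ∀ᶠ j in U, v a j = w a j := by
    rw [_root_.funext_iff]
    exact forall_congr' fun a => hπ.eq_iff _ _
  rw [h1, ← eventually_all]
  refine eventually_congr (Eventually.of_forall fun j => ?_)
  rw [_root_.funext_iff]

end Pool.Agent.H837.UR
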